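import Mathlib
import Pool.Agent.N662.FP.Stm
import Pool.Agent.Helper392.Mey.PL

/-!
# Project FL (helper662), PLE: the inequality of Prekopa and Leindler for exponential laws (helper521)
-/

set_option autoImplicit false

namespace Pool.Agent.N521.FL

open MeasureTheory ProbabilityTheory Set
open scoped ENNReal
open Pool.Agent.N662.FP

theorem lint_pi {n : ℕ} (μ : Fin n → Measure ℝ)
    [∀ i, SigmaFinite (μ i)] (f : Fin n → ℝ → ℝ≥0∞) (hf : ∀ i, Measurable (f i)) :
    ∫⁻ x : Fin n → ℝ, ∏ i, f i (x i) ∂(Measure.pi μ) = ∏ i, ∫⁻ x, f i x ∂(μ i) := by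
  induction n with
  | zero => simp
  | succ n n_ih =>
      calc
        _ = ∫⁻ x : ℝ × (Fin n → ℝ),
            f 0 x.1 * ∏ i : Fin n, f (Fin.succ i) (x.2 i)
            ∂((μ 0).prod (Measure.pi (fun i ↦ μ i.succ))) := by
          rw [← ((measurePreserving_piFinSuccAbove μ 0).symm).lintegral_comp_emb
            (MeasurableEquiv.measurableEmbedding _)]
          simp_rw [MeasurableEquiv.piFinSuccAbove_symm_apply, Fin.insertNthEquiv,
            Fin.prod_univ_succ, Fin.insertNth_zero, Equiv.coe_fn_mk, Fin.cons_succ,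
            Fin.zero_succAbove, cast_eq, Fin.cons_zero]
        _ = (∫⁻ x, f 0 x ∂μ 0)
            * ∏ i : Fin n, ∫⁻ (x : ℝ), f (Fin.succ i) x ∂(μ i.succ) := by
          rw [← n_ih (fun i => μ i.succ) (fun i => f i.succ) (fun i => hf _)]
          exact lintegral_prod_mul (hf 0).aemeasurable (Finset.measurable_prod _ (fun i _ =>
            (hf _).comp (measurable_pi_apply i))).aemeasurable
        _ = ∏ i, ∫⁻ x, f i x ∂(μ i) := by rw [Fin.prod_univ_succ]

theorem meas_pdf : Measurable (exponentialPDF 1) := by
  unfold exponentialPDF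
  exact ((measurable_exponentialPDFReal 1)).ennreal_ofReal

theorem exp_eq : expMeasure 1 = (volume : Measure ℝ).withDensity (exponentialPDF 1) := rfl

/-- The product of the exponential laws has a density. -/
theorem pi_dens (n : ℕ) : (Measure.pi fun _ : Fin n => expMeasure 1) =
    (volume : Measure (Fin n → ℝ)).withDensity (fun x => ∏ i, exponentialPDF 1 (x i)) := by
  haveI : IsProbabilityMeasure (expMeasure 1) := isProbabilityMeasure_expMeasure one_pos
  apply Measure.pi_eq
  intro s hs
  rw [withDensity_apply _ (MeasurableSet.univ_pi hs), volume_pi, Measure.restrict_pi_pi,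
    lint_pi _ _ (fun _ => meas_pdf)]
  apply Finset.prod_congr rfl
  intro i _
  rw [exp_eq, withDensity_apply _ (hs i)]

/-- Log-concavity of the density. -/
theorem pdf_mul (x y : ℝ) :
    exponentialPDF 1 x * exponentialPDF 1 y ≤ exponentialPDF 1 ((x + y) / 2) ^ 2 := by
  rcases lt_or_ge x 0 with hx | hx
  · rw [exponentialPDF_of_neg hx, zero_mul]
    exact zero_le
  rcases lt_or_ge y 0 with hy | hy
  · rw [exponentialPDF_of_neg hy, mul_zero]
    exact zero_le
  rw [exponentialPDF_eq, exponentialPDF_eq, exponentialPDF_eq, if_pos hx, if_pos hy,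
    if_pos (by linarith), ← ENNReal.ofReal_mul (by positivity),
    ← ENNReal.ofReal_pow (by positivity)]
  apply ENNReal.ofReal_le_ofReal
  rw [one_mul, one_mul, one_mul, one_mul, one_mul, one_mul, ← Real.exp_add, ← Real.exp_nat_mul]
  apply le_of_eq
  congr 1
  push_cast
  ring

/-- **PLE.** -/
theorem t_PLE : S_PLE := by
  intro n A B C hA hB hC H
  have hρ : Measurable (fun x : Fin n → ℝ => ∏ i, exponentialPDF 1 (x i)) :=
    Finset.measurable_prod _ fun i _ => meas_pdf.comp (measurable_pi_apply i)
  have h := Pool.Agent.Helper392.Mey.PL.pln n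
    (A.indicator fun x : Fin n → ℝ => ∏ i, exponentialPDF 1 (x i))
    (B.indicator fun x : Fin n → ℝ => ∏ i, exponentialPDF 1 (x i))
    (C.indicator fun x : Fin n → ℝ => ∏ i, exponentialPDF 1 (x i))
    (hρ.indicator hA) (hρ.indicator hB) (hρ.indicator hC) ?_
  · rw [lintegral_indicator hA, lintegral_indicator hB, lintegral_indicator hC] at h
    rw [pi_dens, withDensity_apply _ hA, withDensity_apply _ hB, withDensity_apply _ hC]
    exact h
  · intro s t
    by_cases hs : s ∈ A
    · by_cases ht : t ∈ B
      · rw [indicator_of_mem hs, indicator_of_mem ht, indicator_of_mem (H s hs t ht),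
          ← Finset.prod_mul_distrib, ← Finset.prod_pow]
        exact Finset.prod_le_prod' fun i _ => pdf_mul (s i) (t i)
      · rw [indicator_of_notMem ht, mul_zero]
        exact zero_le
    · rw [indicator_of_notMem hs, zero_mul]
      exact zero_le

end Pool.Agent.N521.FL
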